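import Mathlib
import Pool.Agent.helper57.p19.CfgA
import Pool.Agent.helper57.refl.Check
set_option maxRecDepth 100000
namespace Pool.Agent.H57.P19.A
open Pool.Agent.H57 Pool.Agent.H57.P19

theorem kids_spec : ∀ (g : Rec → ℕ → Bool) (cm : ℕ), kids g cm = true → ∀ w < 18, cm.testBit (440 * w) = true →
    g (vtx w) (440 * w) = true := by
  intro g cm h w hw hb
  unfold kids at h
  obtain ⟨h0, h⟩ := brecAnd h
  obtain ⟨h1, h⟩ := brecAnd h
  obtain ⟨h2, h⟩ := brecAnd h
  obtain ⟨h3, h⟩ := brecAnd h
  have h4 := h
  interval_cases w
  · have a := brecOr h0 (land_ne (p := 440 * 0) hb (by decide +kernel))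
    unfold grp0 at a
    have a := (brecAnd a).1
    exact brecOr a (land_ne (p := 440 * 0) hb (by decide +kernel))
  · have a := brecOr h0 (land_ne (p := 440 * 1) hb (by decide +kernel))
    unfold grp0 at a
    have a := (brecAnd a).2
    have a := (brecAnd a).1
    exact brecOr a (land_ne (p := 440 * 1) hb (by decide +kernel))
  · have a := brecOr h0 (land_ne (p := 440 * 2) hb (by decide +kernel))
    unfold grp0 at a
    have a := (brecAnd a).2
    have a := (brecAnd a).2
    have a := (brecAnd a).1
    exact brecOr a (land_ne (p := 440 * 2) hb (by decide +kernel))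
  · have a := brecOr h0 (land_ne (p := 440 * 3) hb (by decide +kernel))
    unfold grp0 at a
    have a := (brecAnd a).2
    have a := (brecAnd a).2
    have a := (brecAnd a).2
    exact brecOr a (land_ne (p := 440 * 3) hb (by decide +kernel))
  · have a := brecOr h1 (land_ne (p := 440 * 4) hb (by decide +kernel))
    unfold grp1 at a
    have a := (brecAnd a).1
    exact brecOr a (land_ne (p := 440 * 4) hb (by decide +kernel))
  · have a := brecOr h1 (land_ne (p := 440 * 5) hb (by decide +kernel))
    unfold grp1 at a
    have a := (brecAnd a).2
    have a := (brecAnd a).1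
    exact brecOr a (land_ne (p := 440 * 5) hb (by decide +kernel))
  · have a := brecOr h1 (land_ne (p := 440 * 6) hb (by decide +kernel))
    unfold grp1 at a
    have a := (brecAnd a).2
    have a := (brecAnd a).2
    have a := (brecAnd a).1
    exact brecOr a (land_ne (p := 440 * 6) hb (by decide +kernel))
  · have a := brecOr h1 (land_ne (p := 440 * 7) hb (by decide +kernel))
    unfold grp1 at a
    have a := (brecAnd a).2
    have a := (brecAnd a).2
    have a := (brecAnd a).2
    exact brecOr a (land_ne (p := 440 * 7) hb (by decide +kernel))
  · have a := brecOr h2 (land_ne (p := 440 * 8) hb (by decide +kernel))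
    unfold grp2 at a
    have a := (brecAnd a).1
    exact brecOr a (land_ne (p := 440 * 8) hb (by decide +kernel))
  · have a := brecOr h2 (land_ne (p := 440 * 9) hb (by decide +kernel))
    unfold grp2 at a
    have a := (brecAnd a).2
    have a := (brecAnd a).1
    exact brecOr a (land_ne (p := 440 * 9) hb (by decide +kernel))
  · have a := brecOr h2 (land_ne (p := 440 * 10) hb (by decide +kernel))
    unfold grp2 at a
    have a := (brecAnd a).2
    have a := (brecAnd a).2
    have a := (brecAnd a).1
    exact brecOr a (land_ne (p := 440 * 10) hb (by decide +kernel))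
  · have a := brecOr h2 (land_ne (p := 440 * 11) hb (by decide +kernel))
    unfold grp2 at a
    have a := (brecAnd a).2
    have a := (brecAnd a).2
    have a := (brecAnd a).2
    exact brecOr a (land_ne (p := 440 * 11) hb (by decide +kernel))
  · have a := brecOr h3 (land_ne (p := 440 * 12) hb (by decide +kernel))
    unfold grp3 at a
    have a := (brecAnd a).1
    exact brecOr a (land_ne (p := 440 * 12) hb (by decide +kernel))
  · have a := brecOr h3 (land_ne (p := 440 * 13) hb (by decide +kernel))
    unfold grp3 at a
    have a := (brecAnd a).2
    have a := (brecAnd a).1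
    exact brecOr a (land_ne (p := 440 * 13) hb (by decide +kernel))
  · have a := brecOr h3 (land_ne (p := 440 * 14) hb (by decide +kernel))
    unfold grp3 at a
    have a := (brecAnd a).2
    have a := (brecAnd a).2
    have a := (brecAnd a).1
    exact brecOr a (land_ne (p := 440 * 14) hb (by decide +kernel))
  · have a := brecOr h3 (land_ne (p := 440 * 15) hb (by decide +kernel))
    unfold grp3 at a
    have a := (brecAnd a).2
    have a := (brecAnd a).2
    have a := (brecAnd a).2
    exact brecOr a (land_ne (p := 440 * 15) hb (by decide +kernel))
  · have a := brecOr h4 (land_ne (p := 440 * 16) hb (by decide +kernel))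
    unfold grp4 at a
    have a := (brecAnd a).1
    exact brecOr a (land_ne (p := 440 * 16) hb (by decide +kernel))
  · have a := brecOr h4 (land_ne (p := 440 * 17) hb (by decide +kernel))
    unfold grp4 at a
    have a := (brecAnd a).2
    exact brecOr a (land_ne (p := 440 * 17) hb (by decide +kernel))

end Pool.Agent.H57.P19.A
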