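import Mathlib
import Pool.Agent.helper57.p19.Data
import Pool.Agent.helper57.p19.KidsB
import Pool.Agent.helper57.p19.TopB
set_option maxRecDepth 100000
namespace Pool.Agent.H57.P19.B
open Pool.Agent.H57 Pool.Agent.H57.Refl Pool.Agent.H57.P19

theorem hvtx : ∀ w (g : ℕ → ℕ → ℕ → ℕ → ℕ → Bool) S, vtx w g S = g (tT w) (tD w) (q P.n w 0) (tR w) S := by
  intro w g S
  have e : q P.n w 0 = 22 + 21 * w := by
    have : P.n = 19 := rfl
    rw [this]; unfold q; omega
  rw [e]; rfl

theorem vcheck : allN 19 (fun v => vtxB P.n 440 18 18 P.rp P.MF tabL tabL v (tT v) (tD v) (tR v)) = true := by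
  decide +kernel

theorem tok : TOK P 440 18 18 (crs pts) (lft pts) tT tD tR :=
  tok_of_B (s := 18) pok (by decide) tabL_ok tabL_ok (fun v hv => allN_spec vcheck v hv)

theorem hL : ∀ u < P.n, u ≠ 18 → u < 18 := by
  intro u hu hne
  have : P.n = 19 := rfl
  omega

theorem all_ok : allT P kids vtx (nat_lit 12) all = true := by
  unfold all
  simp only [allT_node, g0, g1, g2, g3, g4, g5, g6, g7, g8, g9, g10, g11, g12, g13, g14, g15, g16, g17, g18, Bool.and_self]

theorem sound : Sound P 18 (crs pts) (lft pts) vtx (12 + 4) (searchB P kids orcl 4) := by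
  have h1 := search_sound pok tok (by decide) hL (by decide +kernel) hvtx kids_spec 12
  have h2 : Sound P 18 (crs pts) (lft pts) vtx 12 (orc (P.n + 2) (3 + P.n) 440 cMn all) :=
    orc_sound hvtx h1 all_ok
  exact searchB_sound pok tok (by decide) hL hvtx kids_spec h2 4

theorem rcheck : allN 18 (fun x => rootB P.n 18 P.rp 3 tabL tabL x (root x)) = true := by decide +kernel

theorem roots : ∀ x1 < P.n, x1 ≠ 18 → RootOK P 18 (crs pts) (lft pts) (lft pts) 3 x1 (root x1) := by
  intro x1 hx hne
  exact root_of_B (s := 18) pok (by decide) tabL_ok tabL_ok hx (allN_spec rcheck x1 (hL x1 hx hne))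

theorem runs : ∀ x1 < P.n, x1 ≠ 18 → searchB P kids orcl 4 (vtx x1) (root x1) = true := by
  intro x1 hx hne
  have hx := hL x1 hx hne
  interval_cases x1
  · exact top0
  · exact top1
  · exact top2
  · exact top3
  · exact top4
  · exact top5
  · exact top6
  · exact top7
  · exact top8
  · exact top9
  · exact top10
  · exact top11
  · exact top12
  · exact top13
  · exact top14
  · exact top15
  · exact top16
  · exact top17

theorem low : ∀ l, CycOK 19 18 pts l → 3 + 1 ≤ (triples (18 :: l ++ [18])).countP (fun t => lft pts t.1 t.2.1 t.2.2) := by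
  have := lower (P := P) (s := 18) (pts := pts) (good := lft pts) (K := 3) (vtx := vtx) (by decide) (by decide) sound root roots runs
  exact this

end Pool.Agent.H57.P19.B
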